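import Pool.Agent.H8Z.BTE.Core
import Pool.Agent.Helper156.OF.Nielsen

set_option autoImplicit false
set_option linter.unusedSectionVars false
set_option linter.unusedSimpArgs false
set_option linter.unusedVariables false

/-! # Geometry of the Cayley tree and two general tools -/

namespace Pool.Agent.H543Z.BTE

open Pool.Agent.Helper156.OF Pool.Agent.H8Z.BTE

section tree

variable {α : Type} [DecidableEq α]

/-- initial segment of length `k` -/
def pre (g : FreeGroup α) (k : ℕ) : FreeGroup α := FreeGroup.mk (g.toWord.take k)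

/-- `p` is an initial segment of `g` -/
def Pf (p g : FreeGroup α) : Prop := p.norm ≤ gp p g

/-- distance in the tree -/
def ds (a b : FreeGroup α) : ℕ := (a⁻¹ * b).norm

lemma toWord_pre (g : FreeGroup α) (k : ℕ) : (pre g k).toWord = g.toWord.take k := by
  unfold pre
  rw [FreeGroup.toWord_mk]
  have h : FreeGroup.IsReduced (g.toWord.take k) := List.IsChain.take FreeGroup.isReduced_toWord k
  exact h.reduce_eq

lemma norm_pre {g : FreeGroup α} {k : ℕ} (h : k ≤ g.norm) : (pre g k).norm = k := by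
  unfold FreeGroup.norm at *
  rw [toWord_pre, List.length_take]
  omega

lemma pre_pf (g : FreeGroup α) (k : ℕ) : Pf (pre g k) g := by
  unfold Pf gp FreeGroup.norm
  rw [le_nlcp_iff, toWord_pre, List.length_take]
  refine ⟨le_rfl, min_le_right _ _, ?_⟩
  rw [List.take_take]
  congr 1
  omega

lemma ds_gp (a b : FreeGroup α) : ds a b + 2 * gp a b = a.norm + b.norm := norm_inv_mul a b

lemma ds_mul (y a b : FreeGroup α) : ds (y * a) (y * b) = ds a b := by
  unfold ds
  congr 1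
  group

lemma ds_comm (a b : FreeGroup α) : ds a b = ds b a := by
  have h1 := ds_gp a b
  have h2 := ds_gp b a
  have h3 := gp_comm a b
  omega

lemma ds_one (a : FreeGroup α) : ds 1 a = a.norm := by simp [ds]

lemma ds_eq_zero {a b : FreeGroup α} (h : ds a b = 0) : a = b :=
  inv_mul_eq_one.1 (FreeGroup.norm_eq_zero.1 h)

lemma Pf.refl (g : FreeGroup α) : Pf g g := by
  have h1 := ds_gp g g
  have h2 : ds g g = 0 := by simp [ds]
  unfold Pf
  omega

lemma one_pf (g : FreeGroup α) : Pf 1 g := by simp [Pf]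

lemma Pf.le {p g : FreeGroup α} (h : Pf p g) : p.norm ≤ g.norm := le_trans h (gp_le_right _ _)

lemma Pf.trans {a b c : FreeGroup α} (h : Pf a b) (h' : Pf b c) : Pf a c := by
  have h1 := gp_ultra a b c
  have h2 := h.le
  unfold Pf at *
  omega

lemma Pf.of_le {p q g : FreeGroup α} (h : Pf p g) (h' : Pf q g) (hl : p.norm ≤ q.norm) :
    Pf p q := by
  have h1 := gp_ultra p g q
  have h2 := gp_comm g q
  unfold Pf at *
  omega

lemma Pf.ds_eq {p q : FreeGroup α} (h : Pf p q) : ds p q + p.norm = q.norm := by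
  have h1 := ds_gp p q
  have h2 := gp_le_left p q
  unfold Pf at h
  omega

lemma Pf.ds_le {p q g : FreeGroup α} (h : Pf p g) (h' : Pf q g) (hl : p.norm ≤ q.norm) :
    ds p q + p.norm = q.norm := (h.of_le h' hl).ds_eq

lemma Pf.ds_ge {p q g : FreeGroup α} (h : Pf p g) (h' : Pf q g) (hl : q.norm ≤ p.norm) :
    ds p q + q.norm = p.norm := by
  rw [ds_comm]
  exact h'.ds_le h hl

lemma Pf.eq {p q g : FreeGroup α} (h : Pf p g) (h' : Pf q g) (hl : p.norm = q.norm) : p = q := by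
  have := h.ds_le h' hl.le
  exact ds_eq_zero (by omega)

lemma Pf.eq_pre {p g : FreeGroup α} (h : Pf p g) : pre g p.norm = p :=
  (pre_pf g _).eq h (norm_pre h.le)

lemma Pf.le_gp {p a b : FreeGroup α} (h : Pf p a) (h' : Pf p b) : p.norm ≤ gp a b := by
  have h1 := gp_ultra a p b
  have h2 := gp_comm a p
  unfold Pf at *
  omega

lemma Pf.of_gp {p a b : FreeGroup α} (h : Pf p a) (h' : p.norm ≤ gp a b) : Pf p b := by
  have h1 := gp_ultra p a b
  unfold Pf at *
  omega

lemma pf_of_ds {p q : FreeGroup α} (h : ds p q + p.norm = q.norm) : Pf p q := by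
  have h1 := ds_gp p q
  unfold Pf
  omega

/-- geodesics are unique -/
lemma geo_uniq {a b z z' : FreeGroup α} (h : ds a z + ds z b = ds a b)
    (h' : ds a z' + ds z' b = ds a b) (hl : ds a z = ds a z') : z = z' := by
  have e1 := ds_mul a⁻¹ z b
  have e2 := ds_mul a⁻¹ z' b
  have h1 : Pf (a⁻¹ * z) (a⁻¹ * b) := pf_of_ds (by unfold ds at *; omega)
  have h2 : Pf (a⁻¹ * z') (a⁻¹ * b) := pf_of_ds (by unfold ds at *; omega)
  exact mul_left_cancel (h1.eq h2 hl)

/-- points of a geodesic are initial segments of one of its ends -/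
lemma pf_or {a b z : FreeGroup α} (h : ds a z + ds z b = ds a b) : Pf z a ∨ Pf z b := by
  have h1 := ds_gp a z
  have h2 := ds_gp z b
  have h3 := ds_gp a b
  have h4 := gp_ultra a z b
  have h5 := gp_comm a z
  unfold Pf
  omega

lemma adj_cases {a b : FreeGroup α} (h : ds a b = 1) :
    (Pf a b ∧ a.norm + 1 = b.norm) ∨ (Pf b a ∧ b.norm + 1 = a.norm) := by
  have h1 := ds_gp a b
  have h2 := gp_le_left a b
  have h3 := gp_le_right a b
  have h5 := gp_comm a b
  unfold Pf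
  omega

end tree

section tools

/-- integration on the Cayley tree -/
lemma integ0 {α : Type} (c : α → FreeGroup α → ℚ) :
    ∃ G : FreeGroup α → ℚ, ∀ x a, G (FreeGroup.of x * a) = G a + c x a := by
  let pm : α → Equiv.Perm (FreeGroup α × ℚ) := fun x =>
    { toFun := fun z => (FreeGroup.of x * z.1, z.2 + c x z.1)
      invFun := fun z => ((FreeGroup.of x)⁻¹ * z.1, z.2 - c x ((FreeGroup.of x)⁻¹ * z.1))
      left_inv := fun z => by simp
      right_inv := fun z => by simp }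
  set Φ : FreeGroup α →* Equiv.Perm (FreeGroup α × ℚ) := FreeGroup.lift pm with hΦ
  have hΦ1 : ∀ x z, Φ (FreeGroup.of x) z = (FreeGroup.of x * z.1, z.2 + c x z.1) := by
    intro x z
    simp only [hΦ, FreeGroup.lift_apply_of]
    rfl
  have hΦ2 : ∀ g z, (Φ g z).1 = g * z.1 := by
    intro g
    induction g using FreeGroup.induction_on with
    | C1 => intro z; simp
    | of x => intro z; rw [hΦ1]
    | inv_of x ih =>
      intro z
      have := ih (Φ (FreeGroup.of x)⁻¹ z)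
      rw [← Equiv.Perm.mul_apply, ← map_mul, mul_inv_cancel, map_one, Equiv.Perm.one_apply] at this
      rw [this, inv_mul_cancel_left]
    | mul x y ihx ihy =>
      intro z
      rw [map_mul, Equiv.Perm.mul_apply, ihx, ihy, mul_assoc]
  refine ⟨fun a => (Φ a (1, 0)).2, fun x a => ?_⟩
  simp only
  rw [map_mul, Equiv.Perm.mul_apply, hΦ1, hΦ2, mul_one]

/-- integration on pairs -/
lemma integ {α : Type} (ψ : MulAut (FreeGroup α)) (c : α → Sym2 (FreeGroup α) → ℚ) :
    ∃ G : FreeGroup α → FreeGroup α → ℚ, (∀ a b, G a b = G b a) ∧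
      ∀ x a b, G (ψ (FreeGroup.of x) * a) (ψ (FreeGroup.of x) * b) = G a b + c x s(a, b) := by
  have h := fun u : FreeGroup α => integ0 (fun x a => c x s(ψ a, ψ a * u))
  choose G0 hG0 using h
  have h1 : ∀ x a b, G0 ((ψ (FreeGroup.of x) * a)⁻¹ * (ψ (FreeGroup.of x) * b))
      (ψ.symm (ψ (FreeGroup.of x) * a)) = G0 (a⁻¹ * b) (ψ.symm a) + c x s(a, b) := by
    intro x a b
    have e1 : (ψ (FreeGroup.of x) * a)⁻¹ * (ψ (FreeGroup.of x) * b) = a⁻¹ * b := by group
    rw [e1, map_mul, MulEquiv.symm_apply_apply, hG0, MulEquiv.apply_symm_apply,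
      mul_inv_cancel_left]
  refine ⟨fun a b => (G0 (a⁻¹ * b) (ψ.symm a) + G0 (b⁻¹ * a) (ψ.symm b)) / 2, fun a b => ?_,
    fun x a b => ?_⟩
  · simp only
    ring
  · simp only
    rw [h1, h1, Sym2.eq_swap (a := b)]
    ring

variable {α E V : Type} [DecidableEq α]

/-- the edge of the tree under a square -/
def sqE (C : Cfg α E V) (e : E) (k : ℤ) : Sym2 (FreeGroup α) :=
  s(C.pt (C.cp e false) (C.pos e false k), C.pt (C.cp e false) (C.pos e false (k + 1)))

lemma tr_of (C : Cfg α E V) {V0 : FreeGroup α} {L : ℤ} (hg : C.Geo V0 L) (ψ : MulAut (FreeGroup α))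
    (hw : ∀ e, C.k1 e < C.k2 e → ∃ x, C.w e = ψ (FreeGroup.of x))
    (hu : ∀ e e' k k', C.k1 e ≤ k → k < C.k2 e → C.k1 e' ≤ k' → k' < C.k2 e' → C.w e = C.w e' →
      sqE C e k = sqE C e' k' → e = e' ∧ k = k') : C.Tr := by
  classical
  intro q
  let c : α → Sym2 (FreeGroup α) → ℚ := fun x ω =>
    if h : ∃ z : E × ℤ, C.k1 z.1 ≤ z.2 ∧ z.2 < C.k2 z.1 ∧ C.w z.1 = ψ (FreeGroup.of x) ∧
      sqE C z.1 z.2 = ω then q h.choose.1 h.choose.2 else 0
  have hc : ∀ e k x, C.k1 e ≤ k → k < C.k2 e → C.w e = ψ (FreeGroup.of x) →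
      c x (sqE C e k) = q e k := by
    intro e k x h1 h2 h3
    have h : ∃ z : E × ℤ, C.k1 z.1 ≤ z.2 ∧ z.2 < C.k2 z.1 ∧ C.w z.1 = ψ (FreeGroup.of x) ∧
      sqE C z.1 z.2 = sqE C e k := ⟨(e, k), h1, h2, h3, rfl⟩
    obtain ⟨e1, e2, e3, e4⟩ := h.choose_spec
    obtain ⟨e5, e6⟩ := hu _ _ _ _ e1 e2 h1 h2 (e3.trans h3.symm) e4
    simp only [c, dif_pos h, e5, e6]
  obtain ⟨G, hG1, hG2⟩ := integ ψ c
  refine ⟨fun v z => G (C.pt v (z / 2)) (C.pt v (z / 2 + 1)), fun e he k h1 h2 => ?_⟩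
  have key : ∀ s, G (C.pt (C.cp e s) (C.cpos e s k / 2)) (C.pt (C.cp e s) (C.cpos e s k / 2 + 1)) =
      G (C.pt (C.cp e s) (C.pos e s k)) (C.pt (C.cp e s) (C.pos e s (k + 1))) := by
    intro s
    rcases hg.pos_cases he s with ⟨_, a1, a2⟩ | ⟨_, a1, a2⟩
    · rw [a1, a1, a2]
      congr 2 <;> omega
    · rw [a1, a1, a2, hG1]
      congr 2 <;> omega
  obtain ⟨x, hx⟩ := hw e (by omega)
  simp only
  rw [key, key, ← hg.eqn e he k h1 h2.le, ← hg.eqn e he (k + 1) (by omega) (by omega), hx, hG2]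
  have := hc e k x h1 h2 hx
  unfold sqE at this
  rw [this]
  ring

/-- a potential on the marked points -/
lemma potential (C : Cfg α E V) {Q : Type} [Group Q] {f : E → Q} (hf : C.Kills f) :
    ∃ u : V × ℤ → Q, ∀ a b x, C.Step a b x → lv f x = u b * (u a)⁻¹ := by
  have hrev : ∀ {a b : V × ℤ} {l : List (E × Bool)}, Pth C.Step a b l →
      ∃ m, Pth C.Step b a m ∧ ∀ f : E → Q, ev f m = (ev f l)⁻¹ :=
    fun h => Pth.rev (fun _ _ _ _ hs => hs.symm) h
  let S : Setoid (V × ℤ) := ⟨fun a b => ∃ l, Pth C.Step a b l,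
    ⟨fun a => ⟨[], Pth.nil a⟩, fun ⟨l, h⟩ => (hrev h).imp fun _ h => h.1,
      fun ⟨l, h⟩ ⟨m, h'⟩ => ⟨_, h.append h'⟩⟩⟩
  have hr : ∀ a, ∃ l, Pth C.Step (Quotient.mk S a).out a l := fun a => Quotient.mk_out (s := S) a
  choose γ hγ using hr
  refine ⟨fun a => ev f (γ a), fun a b x hs => ?_⟩
  have e1 : Quotient.mk S a = Quotient.mk S b := Quotient.sound ⟨_, Pth.single hs⟩
  obtain ⟨m, h1, h2⟩ := hrev (hγ b)
  rw [← e1] at h1
  have h3 := hf _ _ ((Pth.cons (hγ a) hs).append h1)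
  rw [ev_append, h2, ev_cons] at h3
  simp only
  rw [eq_mul_inv_iff_mul_eq]
  exact (inv_mul_eq_one.1 h3).symm

/-- recursion along a rooted tree -/
lemma tree_rec {V Q : Type} [LinearOrder V] [Finite V] [OrderBot V] [Group Q]
    (br : {j : V // j ≠ ⊥} → V) (hbr : ∀ j, br j < j.1) (a : {j : V // j ≠ ⊥} → Q) :
    ∃ t : V → Q, ∀ j, t j.1 = a j * t (br j) := by
  classical
  have hwf : WellFounded (fun a b : V => a < b) := wellFounded_lt
  let F : (j : V) → ((i : V) → i < j → Q) → Q := fun j r =>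
    if h : j = ⊥ then 1 else a ⟨j, h⟩ * r (br ⟨j, h⟩) (hbr ⟨j, h⟩)
  refine ⟨hwf.fix F, fun j => ?_⟩
  rw [hwf.fix_eq]
  simp only [F, dif_neg j.2]

end tools

end Pool.Agent.H543Z.BTE
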