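import Pool.Agent.H543Z.BTE.Init1

set_option autoImplicit false
set_option linter.unusedSectionVars false
set_option linter.unusedSimpArgs false
set_option linter.unusedVariables false

/-! # The components and the bands of the initial configuration -/

namespace Pool.Agent.H543Z.BTE

open Pool.Agent.Helper156.OF Pool.Agent.H8Z.BTE

section comps

variable {α V : Type} [DecidableEq α] [LinearOrder V] [Fintype V] [OrderBot V]
  (g : V → FreeGroup α)

/-- the depth of the branch point of a component -/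
def mm (j : V) : ℕ := (Finset.univ.filter (· < j)).sup (fun i => gp (g i) (g j))

/-- `p` lies in the component `j` -/
def In (p : FreeGroup α) (j : V) : Prop := Pf p (g j) ∧ mm g j ≤ p.norm

/-- the branch point -/
def bp (j : V) : FreeGroup α := pre (g j) (mm g j)

/-- the points of a component -/
def pt (j : V) (k : ℤ) : FreeGroup α := pre (g j) k.toNat

lemma mm_bot : mm g ⊥ = 0 := by
  unfold mm
  rw [Finset.filter_eq_empty_iff.2 (fun _ _ => not_lt_bot)]
  rfl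

lemma le_mm {i j : V} (h : i < j) : gp (g i) (g j) ≤ mm g j :=
  Finset.le_sup (f := fun i => gp (g i) (g j)) (Finset.mem_filter.2 ⟨Finset.mem_univ _, h⟩)

lemma mm_ex {j : V} (h : j ≠ ⊥) : ∃ i, i < j ∧ gp (g i) (g j) = mm g j := by
  obtain ⟨i, h1, h2⟩ := Finset.exists_mem_eq_sup (Finset.univ.filter (· < j))
    ⟨⊥, Finset.mem_filter.2 ⟨Finset.mem_univ _, bot_lt_iff_ne_bot.2 h⟩⟩
    (fun i => gp (g i) (g j))
  exact ⟨i, (Finset.mem_filter.1 h1).2, h2.symm⟩

lemma mm_le (j : V) : mm g j ≤ (g j).norm := Finset.sup_le fun i _ => gp_le_right _ _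

lemma norm_bp (j : V) : (bp g j).norm = mm g j := norm_pre (mm_le g j)

lemma in_bp (j : V) : In g (bp g j) j := ⟨pre_pf _ _, (norm_bp g j).ge⟩

lemma in_self (j : V) : In g (g j) j := ⟨Pf.refl _, mm_le g j⟩

lemma one_in : In g 1 ⊥ := ⟨one_pf _, by simp [mm_bot]⟩

variable {g}

lemma own {p : FreeGroup α} {i : V} (h : Pf p (g i)) :
    ∃ j, j ≤ i ∧ Pf p (g j) ∧ (mm g j < p.norm ∨ j = ⊥) := by
  induction i using WellFoundedLT.induction with
  | _ i ih =>
    by_cases h1 : mm g i < p.norm ∨ i = ⊥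
    · exact ⟨i, le_rfl, h, h1⟩
    · rw [not_or, not_lt] at h1
      obtain ⟨l, h2, h3⟩ := mm_ex g h1.2
      obtain ⟨j, h4, h5⟩ := ih l h2 (h.of_gp (by rw [gp_comm, h3]; exact h1.1))
      exact ⟨j, h4.trans h2.le, h5⟩

lemma own_in {p : FreeGroup α} {i : V} (h : Pf p (g i)) : ∃ j, j ≤ i ∧ In g p j := by
  obtain ⟨j, h1, h2, h3⟩ := own h
  refine ⟨j, h1, h2, ?_⟩
  rcases h3 with h3 | rfl
  · exact h3.le
  · simp [mm_bot]

lemma edge_in0 {a b : FreeGroup α} {i : V} (h : Pf a b) (hl : a.norm + 1 = b.norm)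
    (hb : Pf b (g i)) : ∃ j, In g a j ∧ In g b j := by
  obtain ⟨j, h1, h2, h3⟩ := own hb
  have h4 : mm g j ≤ a.norm := by
    rcases h3 with h3 | rfl
    · omega
    · simp [mm_bot]
  exact ⟨j, ⟨h.trans h2, h4⟩, h2, by omega⟩

lemma edge_in {a b : FreeGroup α} {i i' : V} (h : ds a b = 1) (ha : Pf a (g i))
    (hb : Pf b (g i')) : ∃ j, In g a j ∧ In g b j := by
  rcases adj_cases h with ⟨h1, h2⟩ | ⟨h1, h2⟩
  · exact edge_in0 h1 h2 hb
  · obtain ⟨j, h3, h4⟩ := edge_in0 h1 h2 ha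
    exact ⟨j, h4, h3⟩

lemma In.two {p : FreeGroup α} {i j : V} (h : In g p i) (h' : In g p j) (hij : i < j) :
    p = bp g j := by
  have h1 := h.1.le_gp h'.1
  have h2 := le_mm g hij
  have h3 := h'.2
  exact h'.1.eq (in_bp g j).1 (by rw [norm_bp]; omega)

lemma In.br {p : FreeGroup α} {i j : V} (h : In g p i) (h' : In g p j) (hij : i ≠ j) :
    ∃ l, p = bp g l := by
  rcases lt_or_gt_of_ne hij with h1 | h1
  · exact ⟨j, h.two h' h1⟩
  · exact ⟨i, h'.two h h1⟩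

lemma In.uniq {a b : FreeGroup α} {i j : V} (hab : a ≠ b) (h1 : In g a i) (h2 : In g b i)
    (h3 : In g a j) (h4 : In g b j) : i = j := by
  by_contra hij
  rcases lt_or_gt_of_ne hij with h | h
  · exact hab ((h1.two h3 h).trans (h2.two h4 h).symm)
  · exact hab ((h3.two h1 h).trans (h4.two h2 h).symm)

lemma br_ex (j : {j : V // j ≠ ⊥}) : ∃ i, i < j.1 ∧ In g (bp g j.1) i := by
  obtain ⟨l, h1, h2⟩ := mm_ex g j.2
  obtain ⟨i, h3, h4⟩ := own_in (g := g) (i := l)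
    ((in_bp g j.1).1.of_gp (by rw [gp_comm, h2, norm_bp]))
  exact ⟨i, lt_of_le_of_lt h3 h1, h4⟩

lemma norm_pt {j : V} {k : ℤ} (h1 : (mm g j : ℤ) ≤ k) (h2 : k ≤ (g j).norm) :
    ((pt g j k).norm : ℤ) = k := by
  unfold pt
  rw [norm_pre (by omega)]
  omega

lemma pt_pf (j : V) (k : ℤ) : Pf (pt g j k) (g j) := pre_pf _ _

lemma pt_in {j : V} {k : ℤ} (h1 : (mm g j : ℤ) ≤ k) (h2 : k ≤ (g j).norm) : In g (pt g j k) j := by
  have := norm_pt h1 h2
  exact ⟨pt_pf j k, by omega⟩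

lemma In.pt_eq {p : FreeGroup α} {j : V} (h : In g p j) : pt g j (p.norm : ℤ) = p := by
  unfold pt
  rw [Int.toNat_natCast]
  exact h.1.eq_pre

/-- the data of a band -/
structure BS (g : V → FreeGroup α) (y0 : FreeGroup α) (i j : V) (k1 k2 st dr : ℤ) : Prop where
  dr1 : dr = 1 ∨ dr = -1
  kle : k1 ≤ k2
  lo : (mm g i : ℤ) ≤ k1
  hi : k2 ≤ (g i).norm
  rng : ∀ k, k1 ≤ k → k ≤ k2 → (mm g j : ℤ) ≤ st + dr * k ∧ st + dr * k ≤ (g j).norm ∧
    y0 * pt g i k = pt g j (st + dr * k)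
  mx : ∀ p, In g p i → In g (y0 * p) j → k1 ≤ p.norm ∧ (p.norm : ℤ) ≤ k2

lemma band_ex {y0 : FreeGroup α} {i j : V} (h : ∃ p, In g p i ∧ In g (y0 * p) j) :
    ∃ d : ℤ × ℤ × ℤ × ℤ, BS g y0 i j d.1 d.2.1 d.2.2.1 d.2.2.2 := by
  set S : Set (FreeGroup α) := {p | In g p i ∧ In g (y0 * p) j} with hS
  have hfin : S.Finite := by
    refine ((Set.finite_Iic (g i).norm).image (pre (g i))).subset ?_
    intro p hp
    exact ⟨p.norm, hp.1.1.le, hp.1.1.eq_pre⟩
  obtain ⟨p1, a1, a2⟩ := Set.exists_min_image S FreeGroup.norm hfin h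
  obtain ⟨p2, b1, b2⟩ := Set.exists_max_image S FreeGroup.norm hfin h
  have h12 := a2 p2 b1
  have hd := a1.1.1.ds_le b1.1.1 h12
  have hA := a1.2
  have hB := b1.2
  have hA1 := hA.1.le
  have hB1 := hB.1.le
  have hA2 := hA.2
  have hB2 := hB.2
  have hl1 := a1.1.2
  have hl2 := b1.1.1.le
  have hAB := ds_mul y0 p1 p2
  have hk : ∀ k : ℤ, (p1.norm : ℤ) ≤ k → k ≤ p2.norm →
      (ds (y0 * p1) (y0 * pt g i k) : ℤ) + p1.norm = k ∧
        (ds (y0 * pt g i k) (y0 * p2) : ℤ) + k = p2.norm := by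
    intro k h1 h2
    have e1 := norm_pt (g := g) (j := i) (k := k) (by omega) (by omega)
    have e2 := a1.1.1.ds_le (pt_pf i k) (by omega)
    have e3 := (pt_pf i k).ds_le b1.1.1 (by omega)
    rw [ds_mul, ds_mul]
    omega
  have hmx : ∀ p, In g p i → In g (y0 * p) j → (p1.norm : ℤ) ≤ p.norm ∧ (p.norm : ℤ) ≤ p2.norm := by
    intro p h1 h2
    have e1 := a2 p ⟨h1, h2⟩
    have e2 := b2 p ⟨h1, h2⟩
    omega
  rcases le_total (y0 * p1).norm (y0 * p2).norm with hc | hc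
  · have e0 := hA.1.ds_le hB.1 hc
    refine ⟨(p1.norm, p2.norm, ((y0 * p1).norm : ℤ) - p1.norm, 1), Or.inl rfl, by simp only; omega,
      by simp only; omega, by simp only; omega, fun k h1 h2 => ?_, hmx⟩
    simp only at h1 h2 ⊢
    obtain ⟨e1, e2⟩ := hk k h1 h2
    have e3 := norm_pt (g := g) (j := j) (k := ((y0 * p1).norm : ℤ) - p1.norm + 1 * k)
      (by omega) (by omega)
    have e4 := hA.1.ds_le (pt_pf j (((y0 * p1).norm : ℤ) - p1.norm + 1 * k)) (by omega)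
    have e5 := (pt_pf j (((y0 * p1).norm : ℤ) - p1.norm + 1 * k)).ds_le hB.1 (by omega)
    exact ⟨by omega, by omega, geo_uniq (a := y0 * p1) (b := y0 * p2) (by omega) (by omega)
      (by omega)⟩
  · have e0 := hA.1.ds_ge hB.1 hc
    refine ⟨(p1.norm, p2.norm, ((y0 * p1).norm : ℤ) + p1.norm, -1), Or.inr rfl,
      by simp only; omega, by simp only; omega, by simp only; omega, fun k h1 h2 => ?_, hmx⟩
    simp only at h1 h2 ⊢
    obtain ⟨e1, e2⟩ := hk k h1 h2
    have e3 := norm_pt (g := g) (j := j) (k := ((y0 * p1).norm : ℤ) + p1.norm + -1 * k)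
      (by omega) (by omega)
    have e4 := hA.1.ds_ge (pt_pf j (((y0 * p1).norm : ℤ) + p1.norm + -1 * k)) (by omega)
    have e5 := (pt_pf j (((y0 * p1).norm : ℤ) + p1.norm + -1 * k)).ds_ge hB.1 (by omega)
    exact ⟨by omega, by omega, geo_uniq (a := y0 * p1) (b := y0 * p2) (by omega) (by omega)
      (by omega)⟩

end comps

section cfg

variable {α V : Type} [DecidableEq α] [LinearOrder V] [Fintype V] [OrderBot V]
  (g : V → FreeGroup α) (y : α → FreeGroup α)

/-- the nonempty bands -/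
abbrev Band := {b : α × V × V // ∃ p, In g p b.2.1 ∧ In g (y b.1 * p) b.2.2}

/-- arcs and bands -/
abbrev Ed := {j : V // j ≠ ⊥} ⊕ Band g y

noncomputable def br (j : {j : V // j ≠ ⊥}) : V := (br_ex (g := g) j).choose

lemma br_lt (j : {j : V // j ≠ ⊥}) : br g j < j.1 := (br_ex (g := g) j).choose_spec.1

lemma br_in (j : {j : V // j ≠ ⊥}) : In g (bp g j.1) (br g j) := (br_ex (g := g) j).choose_spec.2

noncomputable def bd (b : Band g y) : ℤ × ℤ × ℤ × ℤ := (band_ex b.2).choose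

lemma bd_spec (b : Band g y) : BS g (y b.1.1) b.1.2.1 b.1.2.2 (bd g y b).1 (bd g y b).2.1
    (bd g y b).2.2.1 (bd g y b).2.2.2 := (band_ex b.2).choose_spec

/-- the special elements -/
def zz : V ⊕ V ⊕ (α × V) ⊕ (α × V) → FreeGroup α
  | Sum.inl j => g j
  | Sum.inr (Sum.inl j) => bp g j
  | Sum.inr (Sum.inr (Sum.inl t)) => y t.1 * bp g t.2
  | Sum.inr (Sum.inr (Sum.inr t)) => (y t.1)⁻¹ * bp g t.2

/-- the initial configuration -/
noncomputable def cfg : Cfg α (Ed g y) V where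
  cp := Sum.elim (fun j s => cond s j.1 (br g j)) (fun b s => cond s b.1.2.2 b.1.2.1)
  w := Sum.elim (fun _ => 1) (fun b => y b.1.1)
  st := Sum.elim (fun j _ => mm g j.1) (fun b s => cond s (bd g y b).2.2.1 0)
  dr := Sum.elim (fun _ _ => 1) (fun b s => cond s (bd g y b).2.2.2 1)
  k1 := Sum.elim (fun _ => 0) (fun b => (bd g y b).1)
  k2 := Sum.elim (fun _ => 0) (fun b => (bd g y b).2.1)
  lo := fun c => mm g c
  hi := fun c => (g c).norm
  pt := pt g
  c0 := ⊥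
  R := Set.univ
  M := Set.range (fun t : V × (V ⊕ V ⊕ (α × V) ⊕ (α × V)) => (t.1, ((zz g y t.2).norm : ℤ)))

/-- special elements -/
def Mk (p : FreeGroup α) : Prop := ∃ t, zz g y t = p

variable {g y}

lemma Mk.mem {p : FreeGroup α} (h : Mk g y p) (c : V) : (c, (p.norm : ℤ)) ∈ (cfg g y).M := by
  obtain ⟨t, rfl⟩ := h
  exact ⟨(c, t), rfl⟩

lemma mk_g (j : V) : Mk g y (g j) := ⟨Sum.inl j, rfl⟩

lemma mk_bp (j : V) : Mk g y (bp g j) := ⟨Sum.inr (Sum.inl j), rfl⟩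

lemma mk_mul (x : α) (j : V) : Mk g y (y x * bp g j) := ⟨Sum.inr (Sum.inr (Sum.inl (x, j))), rfl⟩

lemma mk_inv (x : α) (j : V) : Mk g y ((y x)⁻¹ * bp g j) :=
  ⟨Sum.inr (Sum.inr (Sum.inr (x, j))), rfl⟩

lemma step_arc (j : {j : V // j ≠ ⊥}) : (cfg g y).Step (br g j, ((bp g j.1).norm : ℤ))
    (j.1, ((bp g j.1).norm : ℤ)) (Sum.inl j, true) := by
  refine ⟨trivial, (mk_bp _).mem _, (mk_bp _).mem _, 0, le_rfl, le_rfl, ?_, ?_⟩
  · simp [Cfg.P, Cfg.pos, cfg, norm_bp]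
  · simp [Cfg.P, Cfg.pos, cfg, norm_bp]

lemma step_band (b : Band g y) {p : FreeGroup α} (h1 : In g p b.1.2.1)
    (h2 : In g (y b.1.1 * p) b.1.2.2) (m1 : Mk g y p) (m2 : Mk g y (y b.1.1 * p)) :
    (cfg g y).Step (b.1.2.1, (p.norm : ℤ)) (b.1.2.2, ((y b.1.1 * p).norm : ℤ))
      (Sum.inr b, true) := by
  have hs := bd_spec g y b
  obtain ⟨a1, a2⟩ := hs.mx p h1 h2
  obtain ⟨a3, a4, a5⟩ := hs.rng _ a1 a2
  rw [h1.pt_eq] at a5
  refine ⟨trivial, m1.mem _, m2.mem _, p.norm, a1, a2, ?_, ?_⟩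
  · simp [Cfg.P, Cfg.pos, cfg]
  · rw [a5, norm_pt a3 a4]
    simp [Cfg.P, Cfg.pos, cfg]

lemma geo (hγ : ∃ l, Pth (cfg g y).Step (⊥, 0) (⊥, ((g ⊥).norm : ℤ)) l) [Finite α] :
    (cfg g y).Geo (g ⊥) ((g ⊥).norm : ℤ) := by
  refine ⟨?_, ?_, ?_, ?_, ?_, ?_, ?_, rfl, ?_, Set.finite_range _, hγ⟩
  · rintro (j | b) _ s
    · exact Or.inl rfl
    · cases s
      · exact Or.inl rfl
      · exact (bd_spec g y b).dr1
  · rintro (j | b) _
    · exact le_rfl
    · exact (bd_spec g y b).kle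
  · rintro (j | b) _ s k h1 h2
    · have h3 : k = 0 := le_antisymm h2 h1
      subst h3
      have e1 := br_in g j
      have e2 := e1.1.le
      have e3 := e1.2
      have e4 := mm_le g j.1
      rw [norm_bp] at e2 e3
      cases s
      · simp only [Cfg.pos, cfg, Sum.elim_inl, cond_false]
        omega
      · simp only [Cfg.pos, cfg, Sum.elim_inl, cond_true]
        omega
    · have hs := bd_spec g y b
      obtain ⟨a3, a4, a5⟩ := hs.rng k h1 h2
      have e1 := hs.lo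
      have e2 := hs.hi
      cases s
      · simp only [Cfg.pos, cfg, Sum.elim_inr, cond_false] at h1 h2 ⊢
        omega
      · exact ⟨a3, a4⟩
  · rintro (j | b) _ k h1 h2
    · have h3 : k = 0 := le_antisymm h2 h1
      subst h3
      have e1 := (br_in g j).pt_eq
      have e2 := (in_bp g j.1).pt_eq
      rw [norm_bp] at e1 e2
      simp only [Cfg.pos, cfg, Sum.elim_inl, cond_false, cond_true, mul_zero, add_zero, one_mul]
      rw [e1, e2]
    · obtain ⟨a3, a4, a5⟩ := (bd_spec g y b).rng k h1 h2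
      simp only [Cfg.pos, cfg, Sum.elim_inr, cond_false, cond_true, zero_add, one_mul]
      exact a5
  · intro c i h1 h2
    simp only [cfg] at h1 h2 ⊢
    have e1 := norm_pt (g := g) (j := c) (k := i) h1 h2.le
    have e2 := norm_pt (g := g) (j := c) (k := i + 1) (by omega) (by omega)
    have e3 := (pt_pf (g := g) c i).ds_le (pt_pf c (i + 1)) (by omega)
    unfold ds at e3
    omega
  · intro c
    have := mm_le g c
    simp only [cfg]
    omega
  · simp [cfg, mm_bot]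
  · simp only [cfg]
    rw [(in_self g ⊥).pt_eq]
    have := (one_in g).pt_eq
    rw [FreeGroup.norm_one, Nat.cast_zero] at this
    rw [this, mul_one]

end cfg

end Pool.Agent.H543Z.BTE
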