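import Pool.Agent.H543Z.BTE.Init2
import Pool.Agent.H8Z.BTE.Iface

set_option autoImplicit false
set_option linter.unusedSectionVars false
set_option linter.unusedSimpArgs false
set_option linter.unusedVariables false

/-! # The initial configuration -/

namespace Pool.Agent.H543Z.BTE

open Pool.Agent.Helper156.OF Pool.Agent.H8Z.BTE

section cfg

variable {α V : Type} [DecidableEq α] [LinearOrder V] [Fintype V] [OrderBot V]
  {g : V → FreeGroup α} {y : α → FreeGroup α}

lemma cfg_ex (ψ : MulAut (FreeGroup α)) (hy : ∀ x, y x = ψ (FreeGroup.of x))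
    (hK : ∀ x, ∃ j, g j = y x) : (cfg g y).Ex := by
  intro Q _ f hf
  obtain ⟨u, hu⟩ := potential _ hf
  obtain ⟨t, ht⟩ := tree_rec (br g) (br_lt g) (fun j => f (Sum.inl j))
  have hA : ∀ j i p, i < j → In g p i → In g p j →
      (t i)⁻¹ * u (i, (p.norm : ℤ)) = (t j)⁻¹ * u (j, (p.norm : ℤ)) := by
    intro j
    induction j using WellFoundedLT.induction with
    | _ j ih =>
      intro i p hij h1 h2
      have hj : j ≠ ⊥ := ne_bot_of_gt hij
      have hp := h1.two h2 hij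
      subst hp
      have e1 := hu _ _ _ (step_arc (g := g) (y := y) ⟨j, hj⟩)
      have e2 := ht ⟨j, hj⟩
      have e3 : (t i)⁻¹ * u (i, ((bp g j).norm : ℤ)) =
          (t (br g ⟨j, hj⟩))⁻¹ * u (br g ⟨j, hj⟩, ((bp g j).norm : ℤ)) := by
        rcases lt_trichotomy i (br g ⟨j, hj⟩) with h | h | h
        · exact ih _ (br_lt g ⟨j, hj⟩) i _ h h1 (br_in g ⟨j, hj⟩)
        · rw [← h]
        · exact (ih i hij _ _ h (br_in g ⟨j, hj⟩) h1).symm
      simp only [lv_true] at e1 e2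
      rw [e3, e2, e1]
      group
  have hA' : ∀ i j p, In g p i → In g p j →
      (t i)⁻¹ * u (i, (p.norm : ℤ)) = (t j)⁻¹ * u (j, (p.norm : ℤ)) := by
    intro i j p h1 h2
    rcases lt_trichotomy i j with h | h | h
    · exact hA j i p h h1 h2
    · rw [h]
    · exact (hA i j p h h2 h1).symm
  let Fv : Band g y → Q := fun b => (t b.1.2.2)⁻¹ * f (Sum.inr b) * t b.1.2.1
  have hB : ∀ x i j i' j' p (h1 : In g p i) (h2 : In g (y x * p) j) (h3 : In g p i')
      (h4 : In g (y x * p) j'), Fv ⟨(x, i, j), p, h1, h2⟩ = Fv ⟨(x, i', j'), p, h3, h4⟩ := by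
    intro x i j i' j' p h1 h2 h3 h4
    by_cases hij : i = i' ∧ j = j'
    · obtain ⟨rfl, rfl⟩ := hij
      rfl
    have hm : Mk g y p ∧ Mk g y (y x * p) := by
      by_cases hi : i = i'
      · obtain ⟨l, hl⟩ := h2.br h4 (fun h => hij ⟨hi, h⟩)
        refine ⟨?_, hl ▸ mk_bp l⟩
        have : p = (y x)⁻¹ * bp g l := by rw [← hl, inv_mul_cancel_left]
        exact this ▸ mk_inv x l
      · obtain ⟨l, hl⟩ := h1.br h3 hi
        exact hl ▸ ⟨mk_bp l, mk_mul x l⟩
    have e1 := hu _ _ _ (step_band ⟨(x, i, j), p, h1, h2⟩ h1 h2 hm.1 hm.2)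
    have e2 := hu _ _ _ (step_band ⟨(x, i', j'), p, h3, h4⟩ h3 h4 hm.1 hm.2)
    have e3 := hA' i i' p h1 h3
    have e4 := hA' j j' _ h2 h4
    simp only [lv_true] at e1 e2
    simp only [Fv]
    rw [e1, e2]
    calc _ = ((t j)⁻¹ * u (j, ((y x * p).norm : ℤ))) * ((t i)⁻¹ * u (i, (p.norm : ℤ)))⁻¹ := by group
      _ = _ := by rw [e3, e4]; group
  choose j0 hj0 using hK
  have h0 : ∀ x, In g (y x * 1) (j0 x) := fun x => by
    rw [mul_one, ← hj0]
    exact in_self g _
  let ξ : α → Q := fun x => Fv ⟨(x, ⊥, j0 x), 1, one_in g, h0 x⟩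
  have hC : ∀ x n p, p.norm = n → ∀ i j (h1 : In g p i) (h2 : In g (y x * p) j),
      Fv ⟨(x, i, j), p, h1, h2⟩ = ξ x := by
    intro x n
    induction n with
    | zero =>
      intro p hp i j h1 h2
      have := FreeGroup.norm_eq_zero.1 hp
      subst this
      exact hB x i j ⊥ (j0 x) 1 h1 h2 (one_in g) (h0 x)
    | succ n ih =>
      intro p hp i j h1 h2
      have e1 : (pre p n).norm = n := norm_pre (by omega)
      have e2 := pre_pf p n
      have e3 := e2.ds_eq
      obtain ⟨i1, a1, a2⟩ := edge_in0 e2 (by omega) h1.1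
      have e4 : ∃ l, Pf (y x * pre p n) (g l) := by
        have e5 : ds (y x * 1) (y x * pre p n) + ds (y x * pre p n) (y x * p) =
            ds (y x * 1) (y x * p) := by
          rw [ds_mul, ds_mul, ds_mul, ds_one, ds_one]
          omega
        rcases pf_or e5 with h | h
        · exact ⟨j0 x, h.trans (h0 x).1⟩
        · exact ⟨j, h.trans h2.1⟩
      obtain ⟨l, e4⟩ := e4
      obtain ⟨j1, a3, a4⟩ := edge_in (by rw [ds_mul]; omega) e4 h2.1
      exact (hB x i j i1 j1 p h1 h2 a2 a4).trans (ih _ e1 i1 j1 a1 a3)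
  refine ⟨(FreeGroup.lift ξ).comp ψ.symm.toMonoidHom, t, ?_⟩
  rintro (j | ⟨⟨x, i, j⟩, p, h1, h2⟩)
  · simp only [Cfg.val, cfg, Sum.elim_inl, cond_true, cond_false, map_one]
    rw [ht j]
    group
  · have e1 := hC x _ p rfl i j h1 h2
    simp only [Cfg.val, cfg, Sum.elim_inr, cond_true, cond_false, hy, MonoidHom.comp_apply,
      MulEquiv.coe_toMonoidHom, MulEquiv.symm_apply_apply, FreeGroup.lift_apply_of]
    rw [← e1]
    simp only [Fv]
    group

lemma cfg_gen (ψ : MulAut (FreeGroup α)) (hy : ∀ x, y x = ψ (FreeGroup.of x))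
    (hK : ∀ x, ∃ j, g j = y x) : (cfg g y).Gen := by
  intro Q _ H φ t h1 h2
  have ht : ∀ j, t j ∈ H := by
    intro j
    induction j using WellFoundedLT.induction with
    | _ j ih =>
      by_cases hj : j = ⊥
      · exact hj ▸ h2
      · have e1 := h1 (Sum.inl ⟨j, hj⟩)
        simp only [Cfg.val, cfg, Sum.elim_inl, cond_true, cond_false, map_one, mul_one] at e1
        have e2 := H.mul_mem e1 (ih _ (br_lt g ⟨j, hj⟩))
        rwa [inv_mul_cancel_right] at e2
  refine ⟨fun a => ?_, ht⟩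
  have hx : ∀ x, φ (ψ (FreeGroup.of x)) ∈ H := by
    intro x
    obtain ⟨j, hj⟩ := hK x
    have e1 := h1 (Sum.inr ⟨(x, ⊥, j), 1, one_in g, by
      rw [mul_one, ← hj]
      exact in_self g _⟩)
    simp only [Cfg.val, cfg, Sum.elim_inr, cond_true, cond_false, hy] at e1
    have e2 := H.mul_mem (H.mul_mem (H.inv_mem (ht j)) e1) (ht ⊥)
    have e3 : (t j)⁻¹ * (t j * φ (ψ (FreeGroup.of x)) * (t ⊥)⁻¹) * t ⊥ =
        φ (ψ (FreeGroup.of x)) := by group
    rwa [e3] at e2
  obtain ⟨b, rfl⟩ := ψ.surjective a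
  induction b using FreeGroup.induction_on with
  | C1 => simp
  | of x => exact hx x
  | inv_of x ih =>
    rw [map_inv, map_inv]
    exact H.inv_mem ih
  | mul a b iha ihb =>
    rw [map_mul, map_mul]
    exact H.mul_mem iha ihb

lemma cfg_tr {V0 : FreeGroup α} {L : ℤ} (hg : (cfg g y).Geo V0 L) (ψ : MulAut (FreeGroup α))
    (hy : ∀ x, y x = ψ (FreeGroup.of x)) : (cfg g y).Tr := by
  refine tr_of _ hg ψ ?_ ?_
  · rintro (j | b) h
    · exact absurd h (lt_irrefl (0 : ℤ))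
    · exact ⟨b.1.1, hy _⟩
  · rintro (j | b) (j' | b') k k' h1 h2 h3 h4 h5 h6
    · exact absurd (lt_of_le_of_lt h1 h2) (lt_irrefl (0 : ℤ))
    · exact absurd (lt_of_le_of_lt h1 h2) (lt_irrefl (0 : ℤ))
    · exact absurd (lt_of_le_of_lt h3 h4) (lt_irrefl (0 : ℤ))
    have hs := bd_spec g y b
    have hs' := bd_spec g y b'
    obtain ⟨⟨x, i, j⟩, hb⟩ := b
    obtain ⟨⟨x', i', j'⟩, hb'⟩ := b'
    simp only [cfg, Sum.elim_inr, sqE, Cfg.pos, cond_false, zero_add, one_mul, hy] at h1 h2 h3 h4 h5 h6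
    have hx : x = x' := FreeGroup.of_injective (ψ.injective h5)
    subst hx
    have a1 := hs.lo
    have a2 := hs.hi
    have a3 := hs'.lo
    have a4 := hs'.hi
    simp only at a1 a2 a3 a4
    have n1 := norm_pt (g := g) (j := i) (k := k) (by omega) (by omega)
    have n2 := norm_pt (g := g) (j := i) (k := k + 1) (by omega) (by omega)
    have n3 := norm_pt (g := g) (j := i') (k := k') (by omega) (by omega)
    have n4 := norm_pt (g := g) (j := i') (k := k' + 1) (by omega) (by omega)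
    have e1 : pt g i k = pt g i' k' ∧ pt g i (k + 1) = pt g i' (k' + 1) := by
      rcases Sym2.eq_iff.1 h6 with h | h
      · exact h
      · rw [h.1] at n1
        rw [h.2] at n2
        omega
    have hk : k = k' := by
      rw [e1.1] at n1
      omega
    subst hk
    have hne : pt g i k ≠ pt g i (k + 1) := by
      intro h
      rw [h] at n1
      omega
    have hi : i = i' := In.uniq hne (pt_in (by omega) (by omega)) (pt_in (by omega) (by omega))
      (e1.1 ▸ pt_in (by omega) (by omega)) (e1.2 ▸ pt_in (by omega) (by omega))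
    subst hi
    obtain ⟨b1, b2, b3⟩ := hs.rng k h1 h2.le
    obtain ⟨b4, b5, b6⟩ := hs.rng (k + 1) (by omega) (by omega)
    obtain ⟨c1, c2, c3⟩ := hs'.rng k h3 h4.le
    obtain ⟨c4, c5, c6⟩ := hs'.rng (k + 1) (by omega) (by omega)
    have hj : j = j' := In.uniq (fun h => hne (mul_left_cancel h)) (b3 ▸ pt_in b1 b2)
      (b6 ▸ pt_in b4 b5) (c3 ▸ pt_in c1 c2) (c6 ▸ pt_in c4 c5)
    subst hj
    exact ⟨rfl, rfl⟩

lemma cfg_gam (ψ : MulAut (FreeGroup α)) (hy : ∀ x, y x = ψ (FreeGroup.of x))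
    (w : List (α × Bool)) (h0 : g ⊥ = ψ (FreeGroup.mk w))
    (hS : ∀ l, l <:+ w → ∃ j, g j = ψ (FreeGroup.mk l)) :
    ∃ l, Pth (cfg g y).Step (⊥, 0) (⊥, ((g ⊥).norm : ℤ)) l := by
  have hstep : ∀ (a : α × Bool) (l : List (α × Bool)) (i j : V), a :: l <:+ w →
      In g (ψ (FreeGroup.mk l)) i → In g (ψ (FreeGroup.mk (a :: l))) j →
      ∃ e, (cfg g y).Step (i, ((ψ (FreeGroup.mk l)).norm : ℤ))
        (j, ((ψ (FreeGroup.mk (a :: l))).norm : ℤ)) e := by
    rintro ⟨x, s⟩ l i j hl h1 h2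
    obtain ⟨i1, m1⟩ := hS l ((List.suffix_cons _ _).trans hl)
    obtain ⟨i2, m2⟩ := hS _ hl
    have m3 : Mk g y (ψ (FreeGroup.mk l)) := m1 ▸ mk_g i1
    have m4 : Mk g y (ψ (FreeGroup.mk ((x, s) :: l))) := m2 ▸ mk_g i2
    have e0 : FreeGroup.mk ((x, s) :: l) = FreeGroup.mk [(x, s)] * FreeGroup.mk l := by
      rw [FreeGroup.mul_mk]
      rfl
    cases s
    · have e1 : ψ (FreeGroup.mk l) = y x * ψ (FreeGroup.mk ((x, false) :: l)) := by
        have e2 : (FreeGroup.mk [(x, false)] : FreeGroup α) = (FreeGroup.of x)⁻¹ := rfl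
        rw [e0, e2, map_mul, map_inv, hy, mul_inv_cancel_left]
      rw [e1] at h1 m3
      have := (step_band ⟨(x, j, i), _, h2, h1⟩ h2 h1 m4 m3).symm
      rw [e1]
      exact ⟨_, this⟩
    · have e1 : ψ (FreeGroup.mk ((x, true) :: l)) = y x * ψ (FreeGroup.mk l) := by
        have e2 : (FreeGroup.mk [(x, true)] : FreeGroup α) = FreeGroup.of x := rfl
        rw [e0, e2, map_mul, hy]
      rw [e1] at h2 m4 ⊢
      exact ⟨_, step_band ⟨(x, i, j), _, h1, h2⟩ h1 h2 m3 m4⟩
  have hmain : ∀ l, l <:+ w → ∃ j, In g (ψ (FreeGroup.mk l)) j ∧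
      ∃ m, Pth (cfg g y).Step (⊥, 0) (j, ((ψ (FreeGroup.mk l)).norm : ℤ)) m := by
    intro l
    induction l with
    | nil =>
      intro _
      rw [← FreeGroup.one_eq_mk, map_one]
      exact ⟨⊥, one_in g, [], Pth.nil _⟩
    | cons a l ih =>
      intro hl
      obtain ⟨i, h1, m, h2⟩ := ih ((List.suffix_cons _ _).trans hl)
      obtain ⟨j, hj⟩ := hS _ hl
      have h3 : In g (ψ (FreeGroup.mk (a :: l))) j := hj ▸ in_self g j
      obtain ⟨e, he⟩ := hstep a l i j hl h1 h3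
      exact ⟨j, h3, _, Pth.cons h2 he⟩
  cases w with
  | nil =>
    rw [h0, ← FreeGroup.one_eq_mk, map_one]
    exact ⟨[], Pth.nil _⟩
  | cons a l =>
    obtain ⟨i, h1, m, h2⟩ := hmain l (List.suffix_cons _ _)
    obtain ⟨e, he⟩ := hstep a l i ⊥ (List.suffix_refl _) h1 (h0 ▸ in_self g ⊥)
    rw [h0]
    exact ⟨_, Pth.cons h2 he⟩

end cfg

theorem initS (α : Type) [Fintype α] [DecidableEq α] : InitS α := by
  intro n
  let V := Fin (n + Fintype.card α + 1)
  refine ⟨Nat.card (V × (V ⊕ V ⊕ (α × V) ⊕ (α × V))) + Nat.card (V ⊕ α × V × V), fun ψ v hv => ?_⟩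
  let y : α → FreeGroup α := fun x => ψ (FreeGroup.of x)
  let g : V → FreeGroup α := fun j =>
    if h : j.1 ≤ n then ψ (FreeGroup.mk (v.toWord.drop j.1))
    else y ((Fintype.equivFin α).symm ⟨j.1 - (n + 1), by have := j.2; omega⟩)
  have h0 : g ⊥ = ψ (FreeGroup.mk v.toWord) := by
    have : (⊥ : V).1 = 0 := rfl
    simp only [g, this, Nat.zero_le, dif_pos, List.drop_zero]
  have hK : ∀ x, ∃ j, g j = y x := by
    intro x
    have h1 := (Fintype.equivFin α x).2
    refine ⟨⟨n + 1 + Fintype.equivFin α x, by omega⟩, ?_⟩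
    simp only [g]
    rw [dif_neg (by omega)]
    congr 1
    rw [Equiv.symm_apply_eq]
    apply Fin.ext
    simp only
    omega
  have hS : ∀ l, l <:+ v.toWord → ∃ j, g j = ψ (FreeGroup.mk l) := by
    intro l hl
    have h1 : v.toWord.length ≤ n := hv
    refine ⟨⟨v.toWord.length - l.length, by omega⟩, ?_⟩
    simp only [g]
    rw [dif_pos (by omega), ← List.suffix_iff_eq_drop.1 hl]
  have hg := geo (cfg_gam ψ (y := y) (fun _ => rfl) _ h0 hS)
  rw [h0, FreeGroup.mk_toWord] at hg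
  refine ⟨Ed g y, V, inferInstance, inferInstance, cfg g y,
    ⟨hg, cfg_ex ψ (fun _ => rfl) hK, cfg_gen ψ (fun _ => rfl) hK, cfg_tr hg ψ (fun _ => rfl)⟩,
    ?_, ?_⟩
  · refine le_trans ?_ (Nat.le_add_right _ _)
    simp only [cfg]
    rw [← Set.image_univ, ← Set.ncard_univ]
    exact Set.ncard_image_le
  · refine le_trans ?_ (Nat.le_add_left _ _)
    simp only [cfg]
    rw [Set.ncard_univ]
    exact Nat.card_le_card_of_injective (Sum.map Subtype.val Subtype.val)
      (Sum.map_injective.2 ⟨Subtype.val_injective, Subtype.val_injective⟩)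

end Pool.Agent.H543Z.BTE
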